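import Mathlib

set_option autoImplicit false

namespace Pool.Agent.H.MP_cac0a5_al

def Loc {A B : Type*} (S : Set (A → B)) : Prop :=
  ∀ f, (∀ F : Finset A, ∃ g ∈ S, ∀ a ∈ F, g a = f a) → f ∈ S

lemma isClosed_iff_loc {A B : Type*} [TopologicalSpace B] [DiscreteTopology B]
    (S : Set (A → B)) : IsClosed S ↔ Loc S := by
  constructor
  · intro h f hf
    rw [← h.closure_eq, mem_closure_iff_nhds]
    intro U hU
    rw [nhds_pi, Filter.mem_pi'] at hU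
    obtain ⟨I, t, ht, hI⟩ := hU
    obtain ⟨g, hg, e⟩ := hf I
    exact ⟨g, hI fun a ha => by rw [e a ha]; exact mem_of_mem_nhds (ht a), hg⟩
  · intro h
    rw [← closure_subset_iff_isClosed]
    intro f hf
    refine h f fun F => ?_
    obtain ⟨g, h1, h2⟩ := mem_closure_iff_nhds.1 hf (Set.pi F fun a => {f a})
      (set_pi_mem_nhds F.finite_toSet fun a _ => by simp)
    exact ⟨g, h2, fun a ha => h1 a ha⟩

variable {X : Type*}

abbrev Ops (X : Type*) := ∀ n : ℕ, Set ((Fin (n + 1) → X) → X)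

structure Clone (C : Ops X) : Prop where
  proj : ∀ n (k : Fin (n + 1)), (fun x => x k) ∈ C n
  comp : ∀ n m, ∀ f ∈ C n, ∀ g : Fin (n + 1) → (Fin (m + 1) → X) → X, (∀ i, g i ∈ C m) →
    (fun x => f fun i => g i x) ∈ C m
  loc : ∀ n, Loc (C n)

abbrev Y (X : Type*) := Σ p : ℕ × ℕ, (Fin (p.2 + 1) → X)

structure Mon {A : Type*} (N : Set (A → A)) : Prop where
  one : id ∈ N
  comp : ∀ f ∈ N, ∀ g ∈ N, f ∘ g ∈ N
  loc : Loc N

def M (C : Ops X) : Set (Y X → Y X) :=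
  {f | ∀ p : ℕ × ℕ, ∃ (q : ℕ × ℕ) (F : (Fin (p.2 + 1) → X) → Fin (q.2 + 1) → X),
    (∀ i, (fun x => F x i) ∈ C p.2) ∧ ∀ x, f ⟨p, x⟩ = ⟨q, F x⟩}

lemma M_mono {C D : Ops X} (h : C ≤ D) : M C ⊆ M D := fun _ hf p =>
  let ⟨q, F, h1, h2⟩ := hf p
  ⟨q, F, fun i => h _ (h1 i), h2⟩

lemma M_mon [Nonempty X] {C : Ops X} (hC : Clone C) : Mon (M C) := by
  classical
  refine ⟨fun p => ⟨p, id, fun i => hC.proj _ i, fun _ => rfl⟩, fun f hf g hg p => ?_,
    fun f hf p => ?_⟩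
  · obtain ⟨q, G, h1, h2⟩ := hg p
    obtain ⟨r, F, h3, h4⟩ := hf q
    exact ⟨r, F ∘ G, fun i => hC.comp _ _ _ (h3 i) _ h1, fun x => by simp [h2, h4]⟩
  · obtain ⟨x0⟩ : Nonempty (Fin (p.2 + 1) → X) := inferInstance
    have key : ∀ x, ∃ y, f ⟨p, x⟩ = ⟨(f ⟨p, x0⟩).1, y⟩ := by
      intro x
      obtain ⟨g, hg, e⟩ := hf {⟨p, x⟩, ⟨p, x0⟩}
      obtain ⟨q, G, -, h2⟩ := hg p
      rw [← e ⟨p, x0⟩ (by simp), ← e ⟨p, x⟩ (by simp), h2, h2]
      exact ⟨_, rfl⟩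
    generalize (f ⟨p, x0⟩).1 = q at key
    choose F hF using key
    refine ⟨q, F, fun i => hC.loc _ _ fun A => ?_, hF⟩
    obtain ⟨g, hg, e⟩ := hf (insert ⟨p, x0⟩ (A.image fun x => ⟨p, x⟩))
    obtain ⟨q', G, h1, h2⟩ := hg p
    obtain rfl : q' = q := by
      have := e ⟨p, x0⟩ (by simp)
      rw [h2, hF] at this
      exact congrArg Sigma.fst this
    refine ⟨_, h1 i, fun a ha => ?_⟩
    have := e ⟨p, a⟩ (Finset.mem_insert_of_mem (Finset.mem_image_of_mem _ ha))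
    rw [h2, hF] at this
    exact congrFun (eq_of_heq (Sigma.mk.inj this).2) i

lemma M_inf [Nonempty X] (C D : Ops X) : M C ∩ M D ⊆ M (C ⊓ D) := by
  rintro f ⟨h1, h2⟩ p
  obtain ⟨q, F, h3, h4⟩ := h1 p
  obtain ⟨q', G, h5, h6⟩ := h2 p
  obtain ⟨x0⟩ : Nonempty (Fin (p.2 + 1) → X) := inferInstance
  obtain rfl : q = q' := congrArg Sigma.fst ((h4 x0).symm.trans (h6 x0))
  obtain rfl : F = G := funext fun x => eq_of_heq (Sigma.mk.inj ((h4 x).symm.trans (h6 x))).2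
  exact ⟨q, F, fun i => ⟨h3 i, h5 i⟩, h4⟩

def upd (n m : ℕ) (F : (Fin (n + 1) → X) → Fin (m + 1) → X) (y : Y X) : Y X :=
  Function.update (fun (r : ℕ × ℕ) (x : Fin (r.2 + 1) → X) => (⟨r, x⟩ : Y X)) (0, n)
    (fun x => ⟨(0, m), F x⟩) y.1 y.2

lemma upd_self (n m : ℕ) (F : (Fin (n + 1) → X) → Fin (m + 1) → X) (x : Fin (n + 1) → X) :
    upd n m F ⟨(0, n), x⟩ = ⟨(0, m), F x⟩ := by simp [upd]

lemma upd_ne (n m : ℕ) (F : (Fin (n + 1) → X) → Fin (m + 1) → X) {p : ℕ × ℕ} (hp : p ≠ (0, n))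
    (x : Fin (p.2 + 1) → X) : upd n m F ⟨p, x⟩ = ⟨p, x⟩ := by simp [upd, hp]

lemma upd_mem {C : Ops X} (hC : Clone C) {n m : ℕ} {F : (Fin (n + 1) → X) → Fin (m + 1) → X}
    (hF : ∀ i, (fun x => F x i) ∈ C n) : upd n m F ∈ M C := by
  intro p
  by_cases hp : p = (0, n)
  · subst hp
    exact ⟨(0, m), F, hF, upd_self _ _ _⟩
  · exact ⟨p, id, fun i => hC.proj _ i, upd_ne _ _ _ hp⟩

lemma le_of_M [Nonempty X] {C D : Ops X} (hC : Clone C) (h : M C ⊆ M D) : C ≤ D := by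
  intro n g hg
  obtain ⟨q, F, h1, h2⟩ := h (upd_mem hC (n := n) (m := 0) (F := fun x _ => g x) fun _ => hg) (0, n)
  obtain ⟨x0⟩ : Nonempty (Fin (n + 1) → X) := inferInstance
  obtain rfl : (0, 0) = q := congrArg Sigma.fst ((upd_self _ _ _ x0).symm.trans (h2 x0))
  obtain rfl : (fun x _ => g x) = F :=
    funext fun x => eq_of_heq (Sigma.mk.inj ((upd_self _ _ _ x).symm.trans (h2 x))).2
  exact h1 0

def R (N : Set (Y X → Y X)) (n m : ℕ) (F : (Fin (n + 1) → X) → Fin (m + 1) → X) : Prop :=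
  ∃ f ∈ N, (∀ x, f ⟨(0, n), x⟩ = ⟨(0, m), F x⟩) ∧
    ∀ t k x, f ⟨(t + 1, k), x⟩ = ⟨(t + 1, k), x⟩

def ret (τ : ℕ × ℕ → ℕ) (y : Y X) : Y X := ⟨(τ y.1, y.1.2), y.2⟩

lemma ret_mk (τ : ℕ × ℕ → ℕ) (t k : ℕ) (x : Fin (k + 1) → X) :
    ret τ ⟨(t, k), x⟩ = ⟨(τ (t, k), k), x⟩ := rfl

section
variable {N : Set (Y X → Y X)} (hN : Mon N) {C : Ops X} (hC : Clone C) (hCN : M C ⊆ N)

include hN in
lemma R_comp {n m r : ℕ} {F G} (h1 : R N n m F) (h2 : R N m r G) : R N n r (G ∘ F) := by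
  obtain ⟨f, hf, a1, a2⟩ := h1
  obtain ⟨g, hg, b1, b2⟩ := h2
  exact ⟨g ∘ f, hN.comp _ hg _ hf, fun x => by simp [a1, b1], fun t k x => by simp [a2, b2]⟩

include hC hCN in
lemma R_of {n m : ℕ} {F : (Fin (n + 1) → X) → Fin (m + 1) → X}
    (hF : ∀ i, (fun x => F x i) ∈ C n) : R N n m F :=
  ⟨_, hCN (upd_mem hC hF), upd_self _ _ _, fun t k x => upd_ne _ _ _ (by simp) x⟩

include hC hCN in
lemma ret_mem (τ : ℕ × ℕ → ℕ) : ret τ ∈ N :=
  hCN fun p => ⟨(τ p, p.2), id, fun i => hC.proj _ i, fun _ => rfl⟩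

include hN hC hCN in
lemma assemble (f : Y X → Y X) (hf : ∀ p : ℕ × ℕ, ∃ (q : ℕ × ℕ)
    (F : (Fin (p.2 + 1) → X) → Fin (q.2 + 1) → X), R N p.2 q.2 F ∧ ∀ x, f ⟨p, x⟩ = ⟨q, F x⟩) :
    f ∈ N := by
  classical
  choose q F h1 h2 using hf
  have key : ∀ P : Finset (ℕ × ℕ), ∃ g ∈ N,
      (∀ p ∈ P, ∀ x, g ⟨p, x⟩ = ⟨(2 * (q p).1 + 1, (q p).2), F p x⟩) ∧
      ∀ p ∉ P, ∀ x, g ⟨p, x⟩ = ⟨(2 * p.1 + 2, p.2), x⟩ := by
    intro P
    induction P using Finset.induction_on with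
    | empty => exact ⟨_, ret_mem hC hCN fun p => 2 * p.1 + 2, by simp, fun p _ x => rfl⟩
    | insert p0 P hp ih =>
      obtain ⟨g, hg, a1, a2⟩ := ih
      obtain ⟨f0, hf0, b1, b2⟩ := h1 p0
      refine ⟨_, hN.comp _ (ret_mem hC hCN fun r => if r.1 = 0 then 2 * (q p0).1 + 1 else r.1) _
        (hN.comp _ hf0 _ (hN.comp _ (ret_mem hC hCN fun r =>
          if r = (2 * p0.1 + 2, p0.2) then 0 else r.1) _ hg)), fun p hp' x => ?_, fun p hp' x => ?_⟩
      · rcases Finset.mem_insert.1 hp' with rfl | hp'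
        · simp only [Function.comp_apply]
          rw [a2 p hp, ret_mk _ (2 * p.1 + 2), if_pos rfl, b1, ret_mk, if_pos rfl]
        · have : (2 * (q p).1 + 1, (q p).2) ≠ (2 * p0.1 + 2, p0.2) := by
            intro e; have := congrArg Prod.fst e; simp at this; omega
          simp only [Function.comp_apply]
          rw [a1 p hp', ret_mk _ (2 * (q p).1 + 1), if_neg this, b2, ret_mk, if_neg (by simp)]
      · rw [Finset.mem_insert, not_or] at hp'
        have : (2 * p.1 + 2, p.2) ≠ (2 * p0.1 + 2, p0.2) := by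
          intro e
          refine hp'.1 (Prod.ext ?_ (Prod.mk.inj e).2)
          have := congrArg Prod.fst e; simp at this; omega
        simp only [Function.comp_apply]
        rw [a2 p hp'.2, ret_mk _ (2 * p.1 + 2), if_neg this, b2, ret_mk, if_neg (by simp)]
  refine hN.loc f fun A => ?_
  obtain ⟨g, hg, a1, -⟩ := key (A.image Sigma.fst)
  refine ⟨_, hN.comp _ (ret_mem hC hCN fun r => r.1 / 2) _ hg, fun a ha => ?_⟩
  obtain ⟨p, x⟩ := a
  have : (2 * (q p).1 + 1) / 2 = (q p).1 := by omega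
  simp only [Function.comp_apply]
  rw [a1 p (Finset.mem_image_of_mem _ ha), ret_mk, h2, this]

include hN hC hCN in
lemma R_loc {n m : ℕ} {F : (Fin (n + 1) → X) → Fin (m + 1) → X}
    (h : ∀ A : Finset (Fin (n + 1) → X), ∃ G, R N n m G ∧ ∀ x ∈ A, G x = F x) : R N n m F := by
  classical
  refine ⟨upd n m F, hN.loc _ fun A => ?_, upd_self _ _ _, fun t k x => upd_ne _ _ _ (by simp) x⟩
  obtain ⟨G, h1, h2⟩ := h (A.preimage (fun x => ⟨(0, n), x⟩) fun x _ y _ e =>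
    eq_of_heq (Sigma.mk.inj e).2)
  refine ⟨upd n m G, assemble hN hC hCN _ fun p => ?_, ?_⟩
  · by_cases hp : p = (0, n)
    · subst hp
      exact ⟨(0, m), G, h1, upd_self _ _ _⟩
    · exact ⟨p, id, R_of hC hCN fun i => hC.proj _ i, upd_ne _ _ _ hp⟩
  · rintro ⟨p, x⟩ ha
    by_cases hp : p = (0, n)
    · subst hp
      rw [upd_self, upd_self, h2 x (by simpa using ha)]
    · rw [upd_ne _ _ _ hp, upd_ne _ _ _ hp]

def E (N : Set (Y X → Y X)) : Ops X := fun n =>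
  {g | ∀ m (σ : Fin (n + 1) → Fin (m + 1)),
    R N m (m + 1) fun x => Fin.cons (g fun i => x (σ i)) x}

include hC hCN in
lemma le_E : C ≤ E N := by
  intro n g hg m σ
  refine R_of hC hCN fun i => ?_
  refine Fin.cases ?_ (fun i => ?_) i
  · exact hC.comp _ _ _ hg _ fun j => hC.proj _ (σ j)
  · exact hC.proj _ i

include hN hC hCN in
lemma tuple {n m : ℕ} (σ : Fin (n + 1) → Fin (m + 1)) : ∀ (k : ℕ)
    (G : Fin k → (Fin (n + 1) → X) → X), (∀ i, G i ∈ E N n) →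
    ∃ (r : ℕ) (H : (Fin (m + 1) → X) → Fin (r + 1) → X) (α : Fin (m + 1) → Fin (r + 1))
      (β : Fin k → Fin (r + 1)), R N m r H ∧ (∀ x i, H x (α i) = x i) ∧
      ∀ x i, H x (β i) = G i fun j => x (σ j) := by
  intro k
  induction k with
  | zero =>
    exact fun G _ => ⟨m, id, id, Fin.elim0, R_of hC hCN fun i => hC.proj _ i, fun _ _ => rfl,
      fun _ i => i.elim0⟩
  | succ k ih =>
    intro G hG
    obtain ⟨r, H, α, β, h1, h2, h3⟩ := ih (fun i => G i.succ) fun i => hG _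
    refine ⟨r + 1, _, fun i => (α i).succ, Fin.cons 0 fun i => (β i).succ,
      R_comp hN h1 (hG 0 r fun j => α (σ j)), fun x i => by simp [h2], fun x i => ?_⟩
    refine Fin.cases ?_ (fun i => ?_) i
    · simp [h2]
    · simp [h3]

include hN hC hCN in
lemma E_clone : Clone (E N) := by
  classical
  refine ⟨fun n k => le_E hC hCN _ (hC.proj n k), fun n m f hf g hg r σ => ?_,
    fun n g hg m σ => R_loc hN hC hCN fun A => ?_⟩
  · obtain ⟨s, H, α, β, h1, h2, h3⟩ := tuple hN hC hCN σ _ g hg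
    have := R_comp hN (R_comp hN h1 (hf s β)) (R_of hC hCN (n := s + 1) (m := r + 1)
      (F := fun y i => y ((Fin.cons 0 fun i => (α i).succ : Fin (r + 2) → Fin (s + 2)) i))
      fun i => hC.proj _ _)
    convert this using 1
    ext x i
    refine Fin.cases ?_ (fun i => ?_) i
    · simp [h3]
    · simp [h2]
  · obtain ⟨g', h1, h2⟩ := hg (A.image fun x i => x (σ i))
    exact ⟨_, h1 m σ, fun x hx => by rw [h2 _ (Finset.mem_image_of_mem _ hx)]⟩

include hN hC hCN in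
lemma M_E : M (E N) ⊆ N := by
  intro f hf
  refine assemble hN hC hCN f fun p => ?_
  obtain ⟨q, F, h1, h2⟩ := hf p
  refine ⟨q, F, ?_, h2⟩
  obtain ⟨s, H, α, β, a1, -, a3⟩ := tuple hN hC hCN id _ (fun i x => F x i) h1
  have := R_comp hN a1 (R_of hC hCN (n := s) (m := q.2) (F := fun y i => y (β i))
    fun i => hC.proj _ _)
  convert this using 1
  ext x i
  simp [a3]

end

def tr {A B : Type*} (e : A ≃ B) (N : Set (A → A)) : Set (B → B) := {f | e.symm ∘ f ∘ e ∈ N}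

lemma tr_mon {A B : Type*} (e : A ≃ B) {N : Set (A → A)} (hN : Mon N) : Mon (tr e N) := by
  classical
  refine ⟨?_, fun f hf g hg => ?_, fun f hf => hN.loc _ fun F => ?_⟩
  · convert hN.one using 1
    simp [tr]
  · have := hN.comp _ hf _ hg
    simp only [tr, Set.mem_setOf_eq]
    convert this using 1
    ext x; simp
  · obtain ⟨g, hg, h⟩ := hf (F.image e)
    exact ⟨_, hg, fun a ha => by simp [h _ (Finset.mem_image_of_mem _ ha)]⟩

lemma tr_le {A B : Type*} (e : A ≃ B) (N : Set (A → A)) (N' : Set (B → B)) :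
    tr e N ⊆ N' ↔ N ⊆ tr e.symm N' := by
  constructor
  · intro h f hf
    refine h ?_
    simp only [tr, Set.mem_setOf_eq]
    convert hf using 1
    ext x; simp
  · intro h f hf
    have := h hf
    simp only [tr, Set.mem_setOf_eq] at this
    convert this using 1
    ext x; simp

theorem main [Countable X] [Infinite X] : ∃ Φ : Ops X → Set (X → X),
    (∀ C, Clone C → Mon (Φ C)) ∧ (∀ C D, Clone C → (Φ C ⊆ Φ D ↔ C ≤ D)) ∧
    (∀ C D, Φ C ∩ Φ D ⊆ Φ (C ⊓ D)) ∧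
    ∀ C N, Clone C → Mon N → Φ C ⊆ N → ∃ K, Clone K ∧ Φ K ⊆ N ∧
      ∀ D, Clone D → Φ D ⊆ N → D ≤ K := by
  haveI : Infinite (Y X) := Infinite.of_injective
    (fun x : X => (⟨(0, 0), fun _ => x⟩ : Y X)) fun x y e =>
      congrFun (eq_of_heq (Sigma.mk.inj e).2) 0
  obtain ⟨e⟩ : Nonempty (Y X ≃ X) := nonempty_equiv_of_countable
  refine ⟨fun C => tr e (M C), fun C hC => tr_mon e (M_mon hC), fun C D hC => ⟨fun h => ?_,
    fun h f hf => M_mono h hf⟩, fun C D f hf => M_inf C D hf, fun C N hC hN h => ?_⟩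
  · refine le_of_M hC fun f hf => ?_
    have := (tr_le e _ _).1 h hf
    simp only [tr, Set.mem_setOf_eq] at this
    convert this using 1
    ext x : 1; simp
  · have hN' := tr_mon e.symm hN
    rw [tr_le] at h
    exact ⟨E (tr e.symm N), E_clone hN' hC h, (tr_le _ _ _).2 (M_E hN' hC h),
      fun D hD hDN => le_E hD ((tr_le _ _ _).1 hDN)⟩

end Pool.Agent.H.MP_cac0a5_al
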